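import Pool.Agent.Lib.MP_1aae89_al.W7.Top
import Pool.Agent.Lib.MP_1aae89_al.HC.Top

/-!
# The p-rationality level of induced characters: the reduction to almost simple groups

The definitions used in the statement are in `Pool.Agent.Lib.MP_1aae89_al`:
* `cycField n`: the field `ℚ_n = ℚ(e^(2πi/n))` (`Cyc.lean`);
* `charField χ`: the field `ℚ(χ)` generated by the values of `χ`;
* `conductor χ`: the least positive integer `n` with `ℚ(χ) ⊆ ℚ_n`;
* `lev p χ`: the exponent of `p` in the conductor;
* `ind M ψ`: the induced function `ψ^G(g) = |M|⁻¹ ∑_{x ∈ G} ψ°(x⁻¹ g x)` (`Ind.lean`);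
* `LowLevel`, `NoHighLevel`, `SmallFactor` (`W5/Stat.lean`);
* `Fus`, `ManyClasses` (`W6/Stat.lean`); `IndComb` (`W6/StatC.lean`);
* `numLin`, `Induced`, `LinCond`, `SplitStep`, `AlmostSimpleCond`, `GoodClass` (`W6/Stat2.lean`).
Representations, their irreducibility and their characters, Sylow subgroups, centralizers, normalizers,
commutator subgroups and the Frattini subgroup are those of Mathlib.
-/

namespace Pool.Agent.Results.MP_1aae89_al.AlmostSimple

open Pool.Agent.Lib.MP_1aae89_al

/-- The reduction to almost simple groups. Let `p` be a prime, `b ≥ 2`, and `C` a class of groups which is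
closed under subgroups of index prime to `p`, normal subgroups of index `p` and homomorphic images. Suppose
that each finite group `Z` in `C` with a simple normal subgroup `S` such that `C_Z(S) = 1` and `Z / S` is a
`p`-group satisfies one of the conditions of `AlmostSimpleCond` (`S` is a small factor; many fusion classes;
a normal subgroup of index `p` with an element of order less than `p ^ b` modulo `P'` outside; the
divisibility condition for the irreducible characters of level at least `b` of the central `p'`-extensions
of `Z`).

Let `M` be a subgroup of index prime to `p` of the finite group `G`, `ρ` an irreducible complex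
representation of `M` of dimension prime to `p`, `ψ` its character, `b = lev ψ`, and `K₀` a normal
subgroup of `M` such that `K₀ = 1` or all irreducible characters of `K₀` of degree prime to `p` have level
less than `b`, and `M / K₀` is in `C`. Then `lev (ψ^G) = lev ψ`, and the same for the restriction of `ψ^G` to
a Sylow `p`-subgroup of `G`. -/
theorem result {p : ℕ} (hp : p.Prime) (b : ℕ) (hb2 : 2 ≤ b) (C : (Z : Type) → [Group Z] → Prop)
    (hC : GoodClass p b C) {G : Type} [Group G] [Fintype G] (M : Subgroup G)
    (hM : ¬ p ∣ M.index) {V : Type} [AddCommGroup V] [Module ℂ V] [FiniteDimensional ℂ V]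
    (ρ : Representation ℂ M V) (hρ : ρ.IsIrreducible) (hdeg : ¬ p ∣ Module.finrank ℂ V)
    (hb : lev p ρ.character = b) (K₀ : Subgroup M) [K₀.Normal]
    (hbase : K₀ = ⊥ ∨ LowLevel p b K₀) (hCM : C (M ⧸ K₀)) (Q : Sylow p G) :
    lev p (fun x : Q => ind M ρ.character (x : G)) = b ∧ lev p (ind M ρ.character) = b := by
  have hfx : W3.Fxd p b K₀ := by
    rcases hbase with h | h
    · rw [h]
      exact W4.fxd_bot p b
    · exact W5.topFXL p b hp hb2 h
  have hgood : W3.Good p b (M ⧸ K₀) :=
    W6.good_of_class W5.topK4I W5.topD4E W5.topDG4 W5.topFOK W4.topGCF W3.topLVF W3.topTWS W3.topSUG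
      W3.topPRM W6.topINI W6.topIND W6.topSTP HC.topHCS W6.topRED hp hb2 C hC hCM
  have hIC : W3.IC p b M :=
    W3.topREC p b hp hb2 K₀ ⟨inferInstance, Or.inl hfx, fun {_} => hgood⟩ b le_rfl
  exact W4.out hp M hM ρ hρ hdeg b hb hb2 hIC Q

end Pool.Agent.Results.MP_1aae89_al.AlmostSimple
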