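import Pool.Agent.Lib.MP_1aae89_al.W5.All
import Pool.Agent.Lib.MP_1aae89_al.W7.Top
import Pool.Agent.Lib.MP_1aae89_al.W6.STP

/-!
# The p-rationality level of induced characters: groups with small composition factors

The definitions used in the statement are in `Pool.Agent.Lib.MP_1aae89_al`:
* `cycField n`: the field `ℚ_n = ℚ(e^(2πi/n))` (`Cyc.lean`);
* `charField χ`: the field `ℚ(χ)` generated by the values of `χ`;
* `conductor χ`: the least positive integer `n` with `ℚ(χ) ⊆ ℚ_n`;
* `lev p χ`: the exponent of `p` in the conductor;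
* `ind M ψ`: the induced function `ψ^G(g) = |M|⁻¹ ∑_{x ∈ G} ψ°(x⁻¹ g x)` (`Ind.lean`);
* `LowLevel`, `NoHighLevel`, `SmallFactor` (`W5/Stat.lean`);
* `Fus`, `ManyClasses`, `SmallSeries` (`W6/Stat.lean`).
Representations, their irreducibility and their characters, Sylow subgroups, centralizers, normalizers and
the Frattini subgroup are those of Mathlib.
-/

namespace Pool.Agent.Results.MP_1aae89_al.CompositionFactors

open Pool.Agent.Lib.MP_1aae89_al

/-- Let `p` be a prime, `M` a subgroup of index prime to `p` of the finite group `G`, `ρ` an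
irreducible complex representation of `M` of dimension prime to `p`, `ψ` its character,
`b = lev ψ ≥ 2`, and `P` a Sylow `p`-subgroup of `M`. Let `K_0 ≤ K_1 ≤ ... ≤ K_m = M` be subgroups
such that `K_0 = 1` or all irreducible characters of `K_0` of degree prime to `p` have level less
than `b`, and for each `i < m`: `K_i` is normal in `K_(i+1) P`, and `F = K_(i+1) P / K_i` satisfies
`SmallSeries` or `ManyClasses`, i.e.

* `F` has a subnormal series each of whose factors is a `p`-group, or has no element of order `p^b`, or
  has an abelian Sylow `p`-subgroup which is cyclic or has an automizer of order less than `p`, or is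
  simple and all irreducible characters of degree prime to `p` of the central extensions, by groups of
  order prime to `p`, of its subgroups of index prime to `p` have level less than `b`; or
* the number of the classes of a Sylow `p`-subgroup `R` of `F` for the equivalence relation generated by
  fusion in `F` and congruence modulo `Φ(R)` is greater than `|R : Φ(R)| / p`.

Then `lev (ψ^G) = lev ψ`, and the same for the restriction of `ψ^G` to a Sylow `p`-subgroup of `G`. -/
theorem result {p : ℕ} (hp : p.Prime) {G : Type} [Group G] [Fintype G] (M : Subgroup G)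
    (hM : ¬ p ∣ M.index) {V : Type} [AddCommGroup V] [Module ℂ V] [FiniteDimensional ℂ V]
    (ρ : Representation ℂ M V) (hρ : ρ.IsIrreducible) (hdeg : ¬ p ∣ Module.finrank ℂ V)
    (b : ℕ) (hb : lev p ρ.character = b) (hb2 : 2 ≤ b)
    (P : Sylow p M) (m : ℕ) (K : ℕ → Subgroup M) (hmono : ∀ i < m, K i ≤ K (i + 1))
    (htop : K m = ⊤) (hbase : K 0 = ⊥ ∨ LowLevel p b (K 0))
    (hstep : ∀ i < m, ∃ _h : ((K i).subgroupOf (K (i + 1) ⊔ (P : Subgroup M))).Normal,
      SmallSeries p b
        (↥(K (i + 1) ⊔ (P : Subgroup M)) ⧸ (K i).subgroupOf (K (i + 1) ⊔ (P : Subgroup M))) ∨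
      ManyClasses p
        (↥(K (i + 1) ⊔ (P : Subgroup M)) ⧸ (K i).subgroupOf (K (i + 1) ⊔ (P : Subgroup M))))
    (Q : Sylow p G) :
    lev p (fun x : Q => ind M ρ.character (x : G)) = b ∧ lev p (ind M ρ.character) = b := by
  have hc : ∀ i < m, ∀ g ∈ K (i + 1) ⊔ (P : Subgroup M), ∀ x ∈ K i, g * x * g⁻¹ ∈ K i := by
    intro i hi g hg x hx
    obtain ⟨h, -⟩ := hstep i hi
    exact h.conj_mem ⟨x, le_sup_left (a := K (i + 1)) (hmono i hi hx)⟩ hx ⟨g, hg⟩
  have hfx : W3.Fxd p b (K 0) := by
    rcases hbase with h | h
    · rw [h]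
      exact W4.fxd_bot p b
    · exact W5.topFXL p b hp hb2 h
  have hP : Nat.card (P : Subgroup M) = p ^ (Nat.card M).factorization p := by
    have : Fact p.Prime := ⟨hp⟩
    exact P.card_eq_multiplicity
  have hIC : W3.IC p b M := by
    refine W4.topCHG p b hp hb2 (P : Subgroup M) hP m K hmono ?_ ?_ htop hfx ?_
    · exact fun i hi g hg x hx => hc i hi g (le_sup_left (a := K (i + 1)) hg) x hx
    · intro i hi g hg x hx
      rcases Nat.lt_or_ge i m with h | h
      · exact hc i h g (le_sup_right (a := K (i + 1)) hg) x hx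
      · have h1 : i = m := le_antisymm hi h
        rw [h1, htop]
        exact Subgroup.mem_top _
    · intro i hi _
      obtain ⟨h0, h⟩ := hstep i hi
      rcases h with h | h
      · exact W6.good_of_series W5.topCH4 W5.topD4I W5.topDG4 W5.topFOK hp hb2 h
      · exact W6.good_of_many W4.topGCF hp hb2 h
  exact W4.out hp M hM ρ hρ hdeg b hb hb2 hIC Q

end Pool.Agent.Results.MP_1aae89_al.CompositionFactors
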