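import Pool.Agent.Lib.MP_1aae89_al.W7.Top

/-!
# The p-rationality level of induced characters: combinations of induced characters

The definitions used in the statement are in `Pool.Agent.Lib.MP_1aae89_al`:
* `cycField n`: the field `ℚ_n = ℚ(e^(2πi/n))` (`Cyc.lean`);
* `charField χ`: the field `ℚ(χ)` generated by the values of `χ`;
* `conductor χ`: the least positive integer `n` with `ℚ(χ) ⊆ ℚ_n`;
* `lev p χ`: the exponent of `p` in the conductor;
* `IsCharacter χ`: `χ` is the trace function of a complex matrix representation (`Chr.lean`);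
* `ind M ψ`: the induced function `ψ^G(g) = |M|⁻¹ ∑_{x ∈ G} ψ°(x⁻¹ g x)` (`Ind.lean`);
* `IndComb p b ψ κ`: `m a ψ` is an integral combination of induced characters `(θ_j)^M` (`W6/StatC.lean`).
-/

namespace Pool.Agent.Results.MP_1aae89_al.InducedCombination

open Pool.Agent.Lib.MP_1aae89_al

open Classical in
/-- Let `p` be a prime, `M` a subgroup of index prime to `p` of the finite group `G`, `b ≥ 2`, and `ψ` a
character of `M` (reducible allowed) of degree prime to `p` with `lev ψ ≤ b`, such that
`m a ψ = ∑_j m_j (θ_j)^M` with integers `m`, `m_j`, `p ∤ m`, a character `a` of `M` of degree prime to `p`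
with `lev a < b`, and characters `θ_j` of subgroups `T_j` of `M`, where for each `j` the index of `T_j` is
divisible by `p`, or `θ_j = α_j β_j` with a character `α_j`, `lev α_j < b`, and a linear character `β_j` such
that `β_j(t)^(p^(b-1)) ≠ 1` for some `t ∈ T_j` of `p`-power order. Then `lev ψ = b`, and
`lev (ψ^G) = b`, and the same for the restriction of `ψ^G` to a Sylow `p`-subgroup of `G`. -/
theorem result {p : ℕ} (hp : p.Prime) {G : Type} [Group G] [Fintype G] (M : Subgroup G)
    (hM : ¬ p ∣ M.index) (b : ℕ) (hb2 : 2 ≤ b) (ψ : M → ℂ) (hψ : IsCharacter ψ) (n : ℕ)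
    (hψ1 : ψ 1 = n) (hn : ¬ p ∣ n) (hlev : lev p ψ ≤ b) (hcomb : IndComb p b ψ 1)
    (Q : Sylow p G) :
    lev p ψ = b ∧ lev p (fun x : Q => ind M ψ (x : G)) = b ∧ lev p (ind M ψ) = b := by
  have hQ : Nat.card (Q : Subgroup G) = p ^ (Nat.card G).factorization p := by
    have : Fact p.Prime := ⟨hp⟩
    exact Q.card_eq_multiplicity
  have h1 : b ≤ lev p (fun x : Q => ind M ψ (x : G)) :=
    W6.topQ1D p hp M hM ψ hψ n hψ1 hn b hb2
      (fun P₁ hP₁ => W6.topIND p b hp hb2 P₁ hP₁ ψ hψ 1 hcomb) (Q : Subgroup G) hQ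
  obtain ⟨h2, h3⟩ := W.specLRS p hp M (Q : Subgroup G) ψ hψ
  exact ⟨le_antisymm hlev (h1.trans (h2.trans h3)), le_antisymm (h2.trans (h3.trans hlev)) h1,
    le_antisymm (h3.trans hlev) (h1.trans h2)⟩

end Pool.Agent.Results.MP_1aae89_al.InducedCombination
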