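import Pool.Agent.Lib.MP_1aae89_al.W7.Top
import Pool.Agent.Lib.MP_1aae89_al.W7.Defs2

/-!
# The p-rationality level of induced characters: groups `M = U N_M(A) U` (split BN-pairs)

The definitions used in the statement are in `Pool.Agent.Lib.MP_1aae89_al`:
* `cycField n`: the field `ℚ_n = ℚ(e^(2πi/n))` (`Cyc.lean`);
* `charField χ`: the field `ℚ(χ)` generated by the values of `χ`;
* `conductor χ`: the least positive integer `n` with `ℚ(χ) ⊆ ℚ_n`;
* `lev p χ`: the exponent of `p` in the conductor;
* `ind M ψ`: the induced function `ψ^G(g) = |M|⁻¹ ∑_{x ∈ G} ψ°(x⁻¹ g x)` (`Ind.lean`);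
* `SplitDec p A U` (`HC/Defs.lean`): `A` normalizes `U`, `p ∤ |U|`, no element of `U` except `1` commutes with
  all elements of `A`, and every element of the group is `u n u'` with `u, u' ∈ U` and `n` in the normalizer of `A`;
* `PChain p q A P` (`W7/Defs.lean`): there is a chain of subgroups from `A` to `P`, each of index `p` in the next
  one, such that the next one contains an element outside the previous one whose `q`-th power is `1`;
* `SplitSub p q ρ P`, `SLQuot p M` (`W7/Defs2.lean`): cases 2 and 3 of the theorem.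
Representations, their irreducibility and their characters are those of Mathlib.
-/

namespace Pool.Agent.Results.MP_1aae89_al.SplitTorus

open Pool.Agent.Lib.MP_1aae89_al Pool.Agent.Lib.MP_1aae89_al.BF Pool.Agent.Lib.MP_1aae89_al.W7

/-- Let `p` be a prime, `M` a subgroup of index prime to `p` of the finite group `G`, `ρ` an irreducible
complex representation of `M` on `V` of dimension prime to `p`, `ψ` its character, `b = lev ψ ≥ 2`, and `P`
a Sylow `p`-subgroup of `M`. In each of the following cases `lev (ψ^G) = b`, and also the level of the restriction of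
`ψ^G` to a Sylow `p`-subgroup of `G` is `b`.

* There is `U` with `SplitDec p P U`.
* (`SplitSub`) There are `A` and `U` with `SplitDec p A U` and `PChain p (p^(b-1)) A P`, a vector `v` fixed by `U`,
  and `x ∈ A` such that `x^(p^(b-1))` does not fix `v`.
* (`SLQuot`) `M` is isomorphic to `H / Z`, where `SL_n(F) ≤ H ≤ GL_n(F)`, `Z` is a central subgroup of `H`, and `F` is a finite
  field with `p ∣ |F| - 1`, `n < p`. -/
theorem result {p : ℕ} (hp : p.Prime) {G : Type} [Group G] [Fintype G] (M : Subgroup G)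
    (hM : ¬ p ∣ M.index) {V : Type} [AddCommGroup V] [Module ℂ V] [FiniteDimensional ℂ V]
    (ρ : Representation ℂ M V) (hρ : ρ.IsIrreducible) (hdeg : ¬ p ∣ Module.finrank ℂ V)
    (b : ℕ) (hb : lev p ρ.character = b) (hb2 : 2 ≤ b) (P : Sylow p M)
    (h : (∃ U : Subgroup M, SplitDec p (P : Subgroup M) U) ∨
      SplitSub p (p ^ (b - 1)) ρ (P : Subgroup M) ∨ SLQuot p M) :
    ∀ Q : Sylow p G, lev p (fun x : Q => ind M ρ.character (x : G)) = b ∧
      lev p (ind M ρ.character) = b := by
  intro Q
  have hpf : Fact p.Prime := ⟨hp⟩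
  rcases h with ⟨U, hU⟩ | ⟨A, U, hS, hch, v, hv, x, hx, hxv⟩ | ⟨n, F, _, _, H, hn, hF, hH, f, hf, hZ⟩
  · exact W4.out hp M hM ρ hρ hdeg b hb hb2
      (topHCS p b hp hb2 (P : Subgroup M) U P.card_eq_multiplicity hU) Q
  · exact out7 topADL topUPC topCJS hp M hM ρ hρ hdeg b hb hb2 P A U hS hch v hv x hx hxv Q
  · obtain ⟨P₁, U₁, hP₁, hS₁⟩ := topGLH p n hp hn F hF H hH
    obtain ⟨h1, h2⟩ := specQUO p hp f hf hZ P₁ U₁ hP₁ hS₁
    exact W4.out hp M hM ρ hρ hdeg b hb hb2 (topHCS p b hp hb2 _ _ h1 h2) Q

end Pool.Agent.Results.MP_1aae89_al.SplitTorus
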